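import Mathlib
import Pool.Agent.Q209.Osc.Adm

/-!
# An admissible function whose root sequence oscillates for ever
-/

set_option autoImplicit false

namespace Pool.Agent.Results.MP_0f9b8a_co.DecreasingRoots

open Finset Filter Topology

/-- Admissible functions on pairs of positive integers: on the positive integers `f` is a quotient
of two polynomials with rational coefficients, the denominator having no zero there; `f` is
positive; and for some real `k > 0` the quotient `f (a, b) / (a b / (a + b)) ^ k` tends to a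
positive real number as `a` and `b` both tend to infinity. -/
structure Admissible (f : ℕ → ℕ → ℝ) : Prop where
  rational : ∃ p q : MvPolynomial (Fin 2) ℚ, ∀ a b : ℕ, 1 ≤ a → 1 ≤ b →
    MvPolynomial.eval ![(a : ℚ), (b : ℚ)] q ≠ 0 ∧
      f a b = ((MvPolynomial.eval ![(a : ℚ), (b : ℚ)] p /
        MvPolynomial.eval ![(a : ℚ), (b : ℚ)] q : ℚ) : ℝ)
  pos : ∀ a b : ℕ, 1 ≤ a → 1 ≤ b → 0 < f a b
  limit : ∃ k : ℝ, 0 < k ∧ ∃ L : ℝ, 0 < L ∧
    Tendsto (fun p : ℕ × ℕ => f p.1 p.2 / (((p.1 : ℝ) * p.2 / (p.1 + p.2)) ^ k))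
      (atTop ×ˢ atTop) (𝓝 L)

/-- There is an admissible symmetric `f` such that for every real `x > 0` the sequence with
`n 1 = x` and `n d = ∑ f (j, d - j) n j n (d - j)` for `d ≥ 2` satisfies
`n (d + 1) ^ (1 / (d + 1)) < n d ^ (1 / d)` for every even `d ≥ 2`. -/
theorem result : ∃ f : ℕ → ℕ → ℝ, Admissible f ∧ (∀ a b, f a b = f b a) ∧
    ∀ x : ℝ, 0 < x → ∃ n : ℕ → ℝ, n 1 = x ∧
      (∀ d, 2 ≤ d → n d = ∑ j ∈ Ico 1 d, f j (d - j) * n j * n (d - j)) ∧
      (∀ d, 1 ≤ d → 0 < n d) ∧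
      ∀ d, 2 ≤ d → Even d → n (d + 1) ^ (1 / ((d + 1 : ℕ) : ℝ)) < n d ^ (1 / (d : ℝ)) := by
  refine ⟨Q209.Osc.ff, ⟨Q209.Osc.ff_rat, fun a b => Q209.Osc.ff_pos,
    1, one_pos, 1 / 64, by norm_num, Q209.Osc.ff_limit⟩, Q209.Osc.ff_symm, fun x hx =>
    ⟨Q209.Osc.seq Q209.Osc.ff x, by simp [Q209.Osc.seq], fun d hd => ?_,
      fun d hd => Q209.Osc.seq_pos hx d hd, fun d hd he => ?_⟩⟩
  · obtain ⟨e, rfl⟩ : ∃ e, d = e + 2 := ⟨d - 2, by omega⟩
    rw [Q209.Osc.seq_two, Finset.sum_Ico_eq_sum_range, show e + 2 - 1 = e + 1 by omega]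
    refine Finset.sum_congr rfl fun i hi => ?_
    rw [show 1 + i = i + 1 by ring, show e + 2 - (i + 1) = e + 1 - i by omega]
  · obtain ⟨m, hm⟩ := he
    obtain ⟨l, rfl⟩ : ∃ l, d = 2 * l + 2 := ⟨m - 1, by omega⟩
    exact Q209.Osc.root_lt hx l

end Pool.Agent.Results.MP_0f9b8a_co.DecreasingRoots
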